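import Pool.Agent.helper69.LN.Spec

set_option autoImplicit false

namespace Pool.Agent.LN

open Finset Pool.Agent.helper38.Neg Pool.Agent.helper55.NT

/-- the substitution: dummy bits are `false` -/
private def PCI_sig (n c : ℕ) : Fin (n + c + n) → Fin n ⊕ Bool := fun i =>
  if h : n + c ≤ (i : ℕ) then Sum.inl ⟨i - (n + c), by omega⟩ else Sum.inr false

private theorem PCI_sb (n c : ℕ) (x : Fin n → Bool) (i : Fin n) :
    sb (PCI_sig n c) x (Fin.natAdd (n + c) i) = x i := by
  unfold sb PCI_sig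
  have h : n + c ≤ ((Fin.natAdd (n + c) i : Fin (n + c + n)) : ℕ) := by
    rw [Fin.val_natAdd]
    omega
  rw [dif_pos h]
  show x _ = x i
  congr 1
  apply Fin.ext
  show ((Fin.natAdd (n + c) i : Fin (n + c + n)) : ℕ) - (n + c) = i
  rw [Fin.val_natAdd]
  omega

private theorem PCI_pd (n c : ℕ) (A : Lang) (x : Fin n → Bool) :
    Pd c A (n + c + n) (sb (PCI_sig n c) x) ↔ A n x := by
  constructor
  · rintro ⟨n', h, hA⟩
    have hn : n' = n := by omega
    subst hn
    have e : (fun i => sb (PCI_sig n' c) x (Fin.cast h (Fin.natAdd (n' + c) i))) = x := by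
      funext i
      rw [Fin.cast_eq_self]
      exact PCI_sb n' c x i
    rw [e] at hA
    exact hA
  · intro hA
    refine ⟨n, rfl, ?_⟩
    have e : (fun i => sb (PCI_sig n c) x (Fin.cast rfl (Fin.natAdd (n + c) i))) = x := by
      funext i
      rw [Fin.cast_eq_self]
      exact PCI_sb n c x i
    rw [e]
    exact hA

theorem PCI (h1 : SUB_stmt) : PCI_stmt := by
  intro c n s A C o hC
  obtain ⟨C', _, h2⟩ := h1 (n + c + n) n s (PCI_sig n c) C
  obtain ⟨o', h3⟩ := h2 o
  refine ⟨C', o', ?_⟩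
  intro x
  rw [h3 x, ← PCI_pd n c A x]
  exact hC _

end Pool.Agent.LN
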